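import Pool.Agent.AFX.Stmts

/-!
# Squad AFX, row TRB: Bad does not depend on the vocabulary
-/

set_option autoImplicit false

open FirstOrder FirstOrder.Language Cardinal Set

namespace Pool.Agent.AFX.H16

open Pool.Agent.AEC Pool.Agent.AEC.AEC Pool.Agent.AFX

/-- **Row TRB.** -/
theorem trb.{u} : TrbStmt.{u} := by
  intro L L0 κ K K0 Φ v h1 h2 h3 θ
  constructor
  · rintro ⟨M, ι, B, f, hκ, hθ, hn⟩
    choose g hg using fun j => h1 M (B j) (f j)
    refine ⟨Φ M, ι, fun j => Φ (B j), g, ?_, fun j => ?_, ?_⟩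
    · rw [← Cardinal.mk_congr (v M)]
      exact hκ
    · rw [← Cardinal.mk_congr (v (B j))]
      exact hθ j
    · rintro ⟨Z0, w0, hw0⟩
      apply hn
      obtain ⟨Z, p, -⟩ := h3 Z0
      choose w hw using fun j => h2 (B j) Z (p.comp (w0 j))
      refine ⟨Z, w, fun i j x => (v Z).injective ?_⟩
      rw [← hw i, ← hw j, Hom.comp_apply, Hom.comp_apply, ← hg i, ← hg j, hw0 i j]
  · rintro ⟨M0, ι, B0, f0, hκ, hθ, hn⟩
    obtain ⟨M, p, hp⟩ := h3 M0
    choose B q hq using fun j => h3 (B0 j)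
    obtain ⟨p', hp'⟩ := Hom.exists_factor (Hom.id (Φ M)) p (fun a => hp a)
    choose f hf using fun j => h2 M (B j) ((q j).comp ((f0 j).comp p'))
    refine ⟨M, ι, B, f, ?_, fun j => ?_, ?_⟩
    · rw [Cardinal.mk_congr (v M)]
      exact hκ.trans (Cardinal.mk_le_of_injective p.injective)
    · rw [Cardinal.mk_congr (v (B j))]
      exact (Cardinal.mk_le_of_surjective (hq j)).trans (hθ j)
    · rintro ⟨Z, w, hw⟩
      apply hn
      choose g hg using fun j => h1 (B j) Z (w j)
      refine ⟨Φ Z, fun j => (g j).comp (q j), fun i j x => ?_⟩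
      obtain ⟨y, hy⟩ : ∃ y, p' (v M y) = x := by
        refine ⟨(v M).symm (p x), p.injective ?_⟩
        rw [hp', Hom.id_apply, Equiv.apply_symm_apply]
      have key : ∀ i, (g i).comp (q i) (f0 i x) = v Z (w i (f i y)) := by
        intro i
        have h := hf i y
        rw [Hom.comp_apply, Hom.comp_apply, hy] at h
        rw [Hom.comp_apply, h, hg]
      rw [key, key, hw i j]

end Pool.Agent.AFX.H16
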